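import Pool.Agent.H7.AF.Det
import Pool.Agent.H88.AF.Av

/-!
helper7 (project MP_28250c_AF): C7-C9: on the base event the top eigenvector is delocalised (`OutD`).
-/

set_option autoImplicit false

namespace ACpFrege

open Finset

variable {b M q : ℕ}

/-- Shifts of coordinates in the row or column `u` do not change the other entries of a layer. -/
theorem lay_shf {u : Fin M} {i : Fin b} {u' v' : Fin M} {s : ZMod (2 * q)} {o : Om b M q} (h : u' = u ∨ v' = u)
    (i' : Fin b) {a c : Fin M} (ha : a ≠ u) (hc : c ≠ u) : lay (shf i u' v' s o i') a c = lay (o i') a c := by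
  have h1 : ∀ x y : Fin M, x ≠ u → y ≠ u → shf i u' v' s o i' x y = o i' x y := by
    intro x y hx hy
    refine shf_ne i u' v' s o i' x y ?_
    rintro ⟨_, h2, h3⟩
    rcases h with h | h
    · exact hx (h2.trans h)
    · exact hy (h3.trans h)
  unfold lay
  rw [h1 a c ha hc, h1 c a hc ha, h1 a a ha ha]

theorem mnr_inv (u : Fin M) : RInv u (fun o : Om b M q => mnr (HH o) u) := by
  intro i u' v' s o h
  funext a c
  change HH (shf i u' v' s o) a.1 c.1 = HH o a.1 c.1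
  unfold HH
  congr 1
  exact Finset.sum_congr rfl fun i' _ => lay_shf h i' a.2 c.2

theorem RInv.of_mnr {α : Type} {u : Fin M} (f : Matrix (Wo u) (Wo u) ℂ → α) : RInv u (fun o : Om b M q => f (mnr (HH o) u)) := by
  intro i u' v' s o h
  exact congrArg f (mnr_inv u i u' v' s o h)

/-- The event for the minor. -/
def Fev (θ g : ℝ) (M : ℕ) {u : Fin M} (D : Matrix (Wo u) (Wo u) ℂ) : Prop :=
  (∀ j ∈ Ico 1 (M - 1), lam D j ≤ θ - 4 * g) ∧ ∑ j ∈ Ico 1 (M - 1), 1 / (θ - lam D j) ≤ 1.6 * Real.sqrt M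

theorem base_F {H : Matrix (Fin M) (Fin M) ℂ} (hH : H.IsHermitian) (u : Fin M) {θ g : ℝ} (hg : 0 < g) (hB : Base θ g H) :
    Fev θ g M (mnr H u) := by
  obtain ⟨_, _, h1, h2⟩ := hB
  have h3 : ∀ j ∈ Ico 1 M, lam H j ≤ θ - 4 * g := fun j hj =>
    (lam_anti hH (Finset.mem_Ico.1 hj).1 (by rw [Fintype.card_fin]; exact (Finset.mem_Ico.1 hj).2)).trans h1
  refine ⟨fun j hj => ?_, ?_⟩
  · have hj' := Finset.mem_Ico.1 hj
    exact (lam_submatrix_le _ hH Subtype.val_injective (by rw [card_wo]; exact hj'.2)).trans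
      (h3 j (Finset.mem_Ico.2 ⟨hj'.1, by omega⟩))
  · have h4 := res_submatrix_le (Subtype.val : Wo u → Fin M) hH Subtype.val_injective (a := 1) (t := θ) (by
      intro j hj
      rw [Fintype.card_fin] at hj
      have := h3 j hj
      linarith)
    rw [card_wo, Fintype.card_fin] at h4
    exact h4.trans h2

/-- The quadratic form of the column. -/
noncomputable def Kq (θ : ℝ) (H : Matrix (Fin M) (Fin M) ℂ) (u : Fin M) : ℝ :=
  ∑ j ∈ Ico 1 (M - 1), ‖ip (mxi H u j) (col H u)‖ ^ 2 / (θ - lam (mnr H u) j)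

theorem incl {H : Matrix (Fin M) (Fin M) ℂ} (hH : H.IsHermitian) (u : Fin M) (hM : 2 ≤ M) {θ g : ℝ} (hg : 0 < g)
    (hθ : 1.98 * Real.sqrt M ≤ θ) (hB : Base θ g H) (hx : 1000 * Real.log M / M < ‖xi H 0 u‖ ^ 2) :
    (0.05 * Real.sqrt M < ‖H u u‖ ∨ (Fev θ g M (mnr H u) ∧ 1.75 * Real.sqrt M < Kq θ H u)) ∨
      30 * Real.log M < ‖ip (mxi H u 0) (col H u)‖ ^ 2 := by
  by_contra hn
  rw [not_or, not_or, not_and] at hn
  obtain ⟨⟨h1, h2⟩, h3⟩ := hn
  have hF := base_F hH u hg hB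
  have h2 := not_lt.1 (h2 hF)
  have h1 := not_lt.1 h1
  have h3 := not_lt.1 h3
  have hl : θ ≤ lam H 0 := by have := hB.1; linarith
  have h4 := det7 hH u hM hl (fun j hj => by have := hF.1 j hj; linarith) h2
  have hM0 : (0 : ℝ) < M := by positivity
  have hM2 : (2 : ℝ) ≤ M := by exact_mod_cast hM
  have hs := Real.sq_sqrt hM0.le
  have hs0 : 0 < Real.sqrt M := Real.sqrt_pos.2 hM0
  have hlog : 0 < Real.log M := Real.log_pos (by linarith)
  have h5 : ‖xi H 0 u‖ * (0.18 * Real.sqrt M) ≤ ‖ip (mxi H u 0) (col H u)‖ := by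
    refine le_trans (mul_le_mul_of_nonneg_left ?_ (norm_nonneg _)) h4
    linarith
  have h6 : (‖xi H 0 u‖ * (0.18 * Real.sqrt M)) ^ 2 ≤ 30 * Real.log M :=
    (pow_le_pow_left₀ (by positivity) h5 2).trans h3
  have h7 : (‖xi H 0 u‖ * (0.18 * Real.sqrt M)) ^ 2 = 0.0324 * (‖xi H 0 u‖ ^ 2 * M) := by
    rw [mul_pow, mul_pow, hs]
    ring
  rw [div_lt_iff₀ hM0] at hx
  rw [h7] at h6
  nlinarith

theorem b2 (hherm : HermS) (hW : HWS) [NeZero q] (hb : 1 ≤ b) (hq : 3 ≤ q) (u : Fin M) {θ g : ℝ} (hg : 0 < g) :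
    pr (fun o : Om b M q => Fev θ g M (mnr (HH o) u) ∧ 1.75 * Real.sqrt M < Kq θ (HH o) u) ≤
      Real.exp (-(0.0216 * (g * Real.sqrt M))) := by
  classical
  let A : Om b M q → ℕ → ℝ := fun o j => if Fev θ g M (mnr (HH o) u) ∧ j ∈ Ico 1 (M - 1) then
    0.4 * g / (θ - lam (mnr (HH o) u) j) else 0
  let G : Om b M q → ℝ := fun o => if Fev θ g M (mnr (HH o) u) then Real.exp (-(0.7 * (g * Real.sqrt M))) else 0
  have hG : ∀ o, 0 ≤ G o := by
    intro o
    change 0 ≤ if Fev θ g M (mnr (HH o) u) then Real.exp (-(0.7 * (g * Real.sqrt M))) else 0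
    split_ifs
    · positivity
    · exact le_rfl
  have h := hW b M q hb hq u G (Ico 1 (M - 1)) (fun o j => mxi (HH o) u j) A hG
    (RInv.of_mnr fun D => if Fev θ g M D then Real.exp (-(0.7 * (g * Real.sqrt M))) else 0)
    (RInv.of_mnr fun D j => exz Subtype.val (xi D j))
    (RInv.of_mnr fun D j => if Fev θ g M D ∧ j ∈ Ico 1 (M - 1) then 0.4 * g / (θ - lam D j) else 0)
    (fun o i hi j hj => mxi_on (hherm b M q o) u (Finset.mem_Ico.1 hi).2 (Finset.mem_Ico.1 hj).2)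
    (fun o j hj => by
      change 0 ≤ (if _ then _ else (0 : ℝ)) ∧ (if _ then _ else (0 : ℝ)) ≤ 1 / 10
      split_ifs with h1
      · have h2 := h1.1.1 j hj
        have h3 : 4 * g ≤ θ - lam (mnr (HH o) u) j := by linarith
        have h4 : 0 < θ - lam (mnr (HH o) u) j := by linarith
        refine ⟨by positivity, ?_⟩
        rw [div_le_iff₀ h4]
        linarith
      · norm_num)
  refine le_trans ?_ (h.trans ?_)
  · unfold pr
    refine av_mono fun o => ?_
    by_cases h1 : Fev θ g M (mnr (HH o) u)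
    · have h2 : G o = Real.exp (-(0.7 * (g * Real.sqrt M))) := if_pos h1
      by_cases h3 : 1.75 * Real.sqrt M < Kq θ (HH o) u
      · rw [if_pos ⟨h1, h3⟩, h2, ← Real.exp_add]
        refine Real.one_le_exp ?_
        have h4 : ∑ j ∈ Ico 1 (M - 1), A o j * ‖ip (mxi (HH o) u j) (col (HH o) u)‖ ^ 2 = 0.4 * g * Kq θ (HH o) u := by
          unfold Kq
          rw [Finset.mul_sum]
          refine Finset.sum_congr rfl fun j hj => ?_
          have h5 : A o j = 0.4 * g / (θ - lam (mnr (HH o) u) j) := if_pos ⟨h1, hj⟩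
          rw [h5]
          ring
        rw [h4]
        nlinarith
      · rw [if_neg (fun h4 => h3 h4.2)]
        exact mul_nonneg (hG o) (Real.exp_pos _).le
    · rw [if_neg (fun h4 => h1 h4.1)]
      exact mul_nonneg (hG o) (Real.exp_pos _).le
  · rw [← av_const (Ω := Om b M q) (Real.exp (-(0.0216 * (g * Real.sqrt M))))]
    refine av_mono fun o => ?_
    by_cases h1 : Fev θ g M (mnr (HH o) u)
    · have h2 : G o = Real.exp (-(0.7 * (g * Real.sqrt M))) := if_pos h1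
      rw [h2, ← Real.exp_add]
      refine Real.exp_le_exp.2 ?_
      have h4 : ∑ j ∈ Ico 1 (M - 1), A o j = 0.4 * g * ∑ j ∈ Ico 1 (M - 1), 1 / (θ - lam (mnr (HH o) u) j) := by
        rw [Finset.mul_sum]
        refine Finset.sum_congr rfl fun j hj => ?_
        have h5 : A o j = 0.4 * g / (θ - lam (mnr (HH o) u) j) := if_pos ⟨h1, hj⟩
        rw [h5]
        ring
      rw [h4]
      have h6 := h1.2
      nlinarith
    · have h2 : G o = 0 := if_neg h1
      rw [h2, zero_mul]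
      exact (Real.exp_pos _).le

theorem b3 (hherm : HermS) (hW : HWS) [NeZero q] (hb : 1 ≤ b) (hq : 3 ≤ q) (u : Fin M) (hM : 2 ≤ M) :
    pr (fun o : Om b M q => 30 * Real.log M < ‖ip (mxi (HH o) u 0) (col (HH o) u)‖ ^ 2) ≤
      Real.exp (0.106 - 3 * Real.log M) := by
  classical
  have h := hW b M q hb hq u (fun _ => Real.exp (-(3 * Real.log M))) {0} (fun o j => mxi (HH o) u j) (fun _ _ => 1 / 10)
    (fun _ => (Real.exp_pos _).le) (fun _ _ _ _ _ _ => rfl)
    (RInv.of_mnr fun D j => exz Subtype.val (xi D j))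
    (fun _ _ _ _ _ _ => rfl)
    (fun o i hi j hj => by
      rw [Finset.mem_singleton] at hi hj
      subst hi
      subst hj
      exact mxi_on (hherm b M q o) u (by omega) (by omega))
    (fun o j hj => by norm_num)
  simp only [Finset.sum_singleton] at h
  refine le_trans ?_ (h.trans ?_)
  · unfold pr
    refine av_mono fun o => ?_
    split_ifs with h1
    · rw [← Real.exp_add]
      refine Real.one_le_exp ?_
      linarith
    · positivity
  · rw [av_const, ← Real.exp_add]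
    refine Real.exp_le_exp.2 ?_
    linarith

theorem num1 {x : ℝ} (hx : 10 ^ 20 ≤ x) : 2 * Real.exp (-(0.00025 * x)) ≤ 1 / (24 * x ^ 2) := by
  have hx0 : 0 < x := lt_of_lt_of_le (by positivity) hx
  have hx1 : (10 : ℝ) ^ 20 ≤ x := hx
  have h1 : (0.00025 * x) ^ 3 / 6 ≤ Real.exp (0.00025 * x) := by
    have := Real.pow_div_factorial_le_exp (0.00025 * x) (by positivity) 3
    simpa [Nat.factorial] using this
  rw [Real.exp_neg, le_div_iff₀ (by positivity), mul_assoc, inv_mul_eq_div, ← mul_div_assoc, div_le_one (Real.exp_pos _)]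
  refine le_trans ?_ h1
  have h2 : (0.00025 * x) ^ 3 / 6 = x ^ 2 * (x * (0.00025 ^ 3 / 6)) := by ring
  rw [h2]
  have h3 : (48 : ℝ) ≤ x * (0.00025 ^ 3 / 6) := by
    refine le_trans ?_ (mul_le_mul_of_nonneg_right hx1 (by norm_num))
    norm_num
  have h4 : 0 ≤ x ^ 2 := sq_nonneg x
  have h5 := mul_le_mul_of_nonneg_left h3 h4
  linarith

theorem num2 {x : ℝ} {L : ℕ} (hL : 4 ≤ L) (hx0 : 0 < x) (hx : x < (L + 1) ^ 400) :
    Real.exp (-(0.0216 * (L : ℝ) ^ 16)) ≤ 1 / (24 * x ^ 2) := by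
  have hL' : (4 : ℝ) ≤ L := by exact_mod_cast hL
  have h1 : 24 * x ^ 2 ≤ Real.exp (0.0216 * (L : ℝ) ^ 16) := by
    have h2 : (L : ℝ) + 1 ≤ Real.exp L := Real.add_one_le_exp _
    have h3 : x ≤ Real.exp (400 * L) := by
      refine hx.le.trans ?_
      have h4 := pow_le_pow_left₀ (by positivity) h2 400
      rw [← Real.exp_nat_mul] at h4
      exact_mod_cast h4
    have h4 : x ^ 2 ≤ Real.exp (800 * L) := by
      have h5 := pow_le_pow_left₀ hx0.le h3 2
      rw [← Real.exp_nat_mul] at h5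
      refine h5.trans (le_of_eq ?_)
      congr 1
      push_cast
      ring
    have h5 : (24 : ℝ) ≤ Real.exp 24 := by
      have := Real.add_one_le_exp (24 : ℝ)
      linarith
    calc 24 * x ^ 2 ≤ Real.exp 24 * Real.exp (800 * L) := mul_le_mul h5 h4 (by positivity) (Real.exp_pos _).le
      _ = Real.exp (24 + 800 * L) := (Real.exp_add _ _).symm
      _ ≤ Real.exp (0.0216 * (L : ℝ) ^ 16) := by
          refine Real.exp_le_exp.2 ?_
          have h6 : (4 : ℝ) ^ 15 ≤ (L : ℝ) ^ 15 := pow_le_pow_left₀ (by norm_num) hL' 15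
          have h7 : (L : ℝ) ^ 16 = (L : ℝ) ^ 15 * L := by ring
          rw [h7]
          nlinarith
  rw [Real.exp_neg, inv_eq_one_div]
  exact one_div_le_one_div_of_le (by positivity) h1

theorem num3 {x : ℝ} (hx : 10 ^ 20 ≤ x) : Real.exp (0.106 - 3 * Real.log x) ≤ 1 / (24 * x ^ 2) := by
  have hx0 : 0 < x := lt_of_lt_of_le (by positivity) hx
  have hx1 : (48 : ℝ) ≤ x := le_trans (by norm_num) hx
  have h1 : Real.exp (0.106 - 3 * Real.log x) = Real.exp 0.106 / x ^ 3 := by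
    rw [Real.exp_sub]
    congr 1
    rw [show (3 : ℝ) * Real.log x = ((3 : ℕ) : ℝ) * Real.log x by norm_num, Real.exp_nat_mul, Real.exp_log hx0]
  rw [h1, div_le_div_iff₀ (by positivity) (by positivity)]
  have h2 : Real.exp 0.106 ≤ 2 := by
    have h3 : Real.exp 0.106 ≤ Real.exp (Real.log 2) := Real.exp_le_exp.2 (by have := Real.log_two_gt_d9; linarith)
    rwa [Real.exp_log (by norm_num)] at h3
  have h3 : 0 < x ^ 2 := by positivity
  have h4 : 48 * x ^ 2 ≤ x ^ 3 := by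
    have : x ^ 3 = x * x ^ 2 := by ring
    rw [this]
    exact mul_le_mul_of_nonneg_right hx1 h3.le
  have h5 : Real.exp 0.106 * (24 * x ^ 2) ≤ 2 * (24 * x ^ 2) := mul_le_mul_of_nonneg_right h2 (by positivity)
  linarith

theorem outD_main (hherm : HermS) (hW : HWS) (hT : TailS) (hb : 1 ≤ b) (hq : 3 ≤ q) [NeZero q] {L : ℕ} {θ : ℝ}
    (hM : (10 : ℝ) ^ 20 ≤ M) (hL : 4 ≤ L) (hL2 : (M : ℝ) < (L + 1) ^ 400) (hθ : 1.98 * Real.sqrt M ≤ θ) :
    pr (fun o : Om b M q => Base θ (gg M L) (HH o) ∧ ∃ u, 1000 * Real.log M / M < ‖xi (HH o) 0 u‖ ^ 2) ≤ 1 / (8 * M) := by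
  have hM0 : (0 : ℝ) < M := lt_of_lt_of_le (by positivity) hM
  have hM2 : 2 ≤ M := by
    have h : (2 : ℝ) ≤ M := le_trans (by norm_num) hM
    exact_mod_cast h
  have hs0 : 0 < Real.sqrt M := Real.sqrt_pos.2 hM0
  have hLr : (0 : ℝ) < L := by
    have : 0 < L := by omega
    exact_mod_cast this
  have hg : 0 < gg M L := div_pos (pow_pos hLr 16) hs0
  have hgs : gg M L * Real.sqrt M = (L : ℝ) ^ 16 := div_mul_cancel₀ _ hs0.ne'
  have hu : ∀ u : Fin M, pr (fun o : Om b M q => Base θ (gg M L) (HH o) ∧ 1000 * Real.log M / M < ‖xi (HH o) 0 u‖ ^ 2) ≤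
      1 / (8 * (M : ℝ) ^ 2) := by
    intro u
    have h1 : pr (fun o : Om b M q => 0.05 * Real.sqrt M < ‖HH o u u‖) ≤ 1 / (24 * (M : ℝ) ^ 2) := by
      refine (hT b M q hb hq u u (0.05 * Real.sqrt M) (by positivity)).trans ?_
      have h2 : (0.05 * Real.sqrt M) ^ 2 / 10 = 0.00025 * M := by
        rw [mul_pow, Real.sq_sqrt hM0.le]
        ring
      rw [h2]
      exact num1 hM
    have h2 := b2 (b := b) (θ := θ) hherm hW hb hq u hg
    rw [hgs] at h2
    have h2' := h2.trans (num2 hL hM0 hL2)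
    have h3 := (b3 (b := b) hherm hW hb hq u hM2).trans (num3 hM)
    have h4 : pr (fun o : Om b M q => Base θ (gg M L) (HH o) ∧ 1000 * Real.log M / M < ‖xi (HH o) 0 u‖ ^ 2) ≤
        pr (fun o : Om b M q => (0.05 * Real.sqrt M < ‖HH o u u‖ ∨
          (Fev θ (gg M L) M (mnr (HH o) u) ∧ 1.75 * Real.sqrt M < Kq θ (HH o) u)) ∨
          30 * Real.log M < ‖ip (mxi (HH o) u 0) (col (HH o) u)‖ ^ 2) :=
      pr_mono fun o ho => incl (hherm b M q o) u hM2 hg hθ ho.1 ho.2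
    have h5 := pr_or (fun o : Om b M q => (0.05 * Real.sqrt M < ‖HH o u u‖ ∨
          (Fev θ (gg M L) M (mnr (HH o) u) ∧ 1.75 * Real.sqrt M < Kq θ (HH o) u)))
          (fun o : Om b M q => 30 * Real.log M < ‖ip (mxi (HH o) u 0) (col (HH o) u)‖ ^ 2)
    have h6 := pr_or (fun o : Om b M q => 0.05 * Real.sqrt M < ‖HH o u u‖)
      (fun o : Om b M q => Fev θ (gg M L) M (mnr (HH o) u) ∧ 1.75 * Real.sqrt M < Kq θ (HH o) u)
    have h7 : 1 / (24 * (M : ℝ) ^ 2) + 1 / (24 * (M : ℝ) ^ 2) + 1 / (24 * (M : ℝ) ^ 2) = 1 / (8 * (M : ℝ) ^ 2) := by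
      field_simp
      norm_num
    linarith
  have h8 : pr (fun o : Om b M q => Base θ (gg M L) (HH o) ∧ ∃ u, 1000 * Real.log M / M < ‖xi (HH o) 0 u‖ ^ 2) ≤
      pr (fun o : Om b M q => ∃ u ∈ (Finset.univ : Finset (Fin M)),
        Base θ (gg M L) (HH o) ∧ 1000 * Real.log M / M < ‖xi (HH o) 0 u‖ ^ 2) := by
    refine pr_mono fun o ho => ?_
    obtain ⟨h1, u, h2⟩ := ho
    exact ⟨u, Finset.mem_univ u, h1, h2⟩
  refine h8.trans ((pr_exists _ _).trans ?_)
  refine (Finset.sum_le_sum fun u _ => hu u).trans ?_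
  rw [Finset.sum_const, Finset.card_univ, Fintype.card_fin, nsmul_eq_mul]
  refine le_of_eq ?_
  field_simp

theorem big400 : (10 : ℝ) ^ 20 ≤ 4 ^ 400 := by
  calc (10 : ℝ) ^ 20 ≤ 4 ^ 100 := by norm_num
    _ ≤ 4 ^ 400 := pow_le_pow_right₀ (by norm_num) (by norm_num)

/-- C7-C9. -/
theorem outD (hherm : HermS) (hW : HWS) (hT : TailS) : OutD := by
  intro q hq
  refine ⟨4 ^ 400, fun M hM L hL1 hL2 b hb _ θ hθ _ => ?_⟩
  have hL : 4 ≤ L := by
    by_contra hn
    have h1 : (L + 1) ^ 400 ≤ 4 ^ 400 := Nat.pow_le_pow_left (Nat.succ_le_of_lt (not_le.1 hn)) 400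
    exact absurd (lt_of_lt_of_le hL2 h1) (not_lt.2 hM)
  have hMr : (4 : ℝ) ^ 400 ≤ (M : ℝ) := by
    have h := Nat.cast_le (α := ℝ).2 hM
    rwa [Nat.cast_pow] at h
  have hL2' : (M : ℝ) < ((L : ℝ) + 1) ^ 400 := by
    have h := Nat.cast_lt (α := ℝ).2 hL2
    rwa [Nat.cast_pow, Nat.cast_add, Nat.cast_one] at h
  exact outD_main hherm hW hT hb hq (big400.trans hMr) hL hL2' hθ

end ACpFrege
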