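import Pool.Agent.H12.AF.Prob
import Pool.Agent.H88.AF.Av

/-!
helper7 (project MP_28250c_AF): all entries are at most `L` (`OutE`), from the tails of the entries.
-/

set_option autoImplicit false

namespace ACpFrege

open Finset

theorem outE_num {x : ℝ} {L : ℕ} (hL : 12010 ≤ L) (hx0 : 0 < x) (hx : x < ((L : ℝ) + 1) ^ 400) :
    x * (x * (2 * Real.exp (-((L : ℝ) ^ 2 / 10)))) ≤ 1 / (8 * x) := by
  have hL' : (12010 : ℝ) ≤ L := by exact_mod_cast hL
  have h1 : 16 * x ^ 3 ≤ Real.exp ((L : ℝ) ^ 2 / 10) := by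
    have h2 : (L : ℝ) + 1 ≤ Real.exp L := Real.add_one_le_exp _
    have h3 : x ≤ Real.exp (400 * L) := by
      refine hx.le.trans ?_
      have h4 := pow_le_pow_left₀ (by positivity) h2 400
      rw [← Real.exp_nat_mul] at h4
      exact_mod_cast h4
    have h4 : x ^ 3 ≤ Real.exp (1200 * L) := by
      have h5 := pow_le_pow_left₀ hx0.le h3 3
      rw [← Real.exp_nat_mul] at h5
      refine h5.trans (le_of_eq ?_)
      congr 1
      push_cast
      ring
    have h5 : (16 : ℝ) ≤ Real.exp 16 := by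
      have := Real.add_one_le_exp (16 : ℝ)
      linarith
    calc 16 * x ^ 3 ≤ Real.exp 16 * Real.exp (1200 * L) := mul_le_mul h5 h4 (by positivity) (Real.exp_pos _).le
      _ = Real.exp (16 + 1200 * L) := (Real.exp_add _ _).symm
      _ ≤ Real.exp ((L : ℝ) ^ 2 / 10) := by
          refine Real.exp_le_exp.2 ?_
          nlinarith
  rw [Real.exp_neg, le_div_iff₀ (by positivity)]
  have h6 := Real.exp_pos ((L : ℝ) ^ 2 / 10)
  have h7 : x * (x * (2 * (Real.exp ((L : ℝ) ^ 2 / 10))⁻¹)) * (8 * x) = 16 * x ^ 3 / Real.exp ((L : ℝ) ^ 2 / 10) := by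
    field_simp
    ring
  rw [h7, div_le_one h6]
  exact h1

/-- The entries are at most `L`, up to probability `1/(8M)`. -/
theorem outE_of_tail (hT : TailS) : OutE := by
  intro q hq
  refine ⟨12011 ^ 400, fun M hM L hL1 hL2 b hb _ => ?_⟩
  have hL : 12010 ≤ L := by
    by_contra hn
    have h0 : L + 1 ≤ 12011 := by
      have := not_le.1 hn
      exact Nat.succ_le_succ this.le
    have h1 : (L + 1) ^ 400 ≤ 12011 ^ 400 := Nat.pow_le_pow_left h0 400
    exact absurd (lt_of_lt_of_le hL2 h1) (not_lt.2 hM)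
  have hM1 : 1 ≤ M := le_trans (Nat.one_le_pow 400 12011 (Nat.succ_pos _)) hM
  clear hM hL1
  have hM0 : (0 : ℝ) < M := by exact_mod_cast hM1
  have hL2' : (M : ℝ) < ((L : ℝ) + 1) ^ 400 := by
    have h := Nat.cast_lt (α := ℝ).2 hL2
    rwa [Nat.cast_pow, Nat.cast_add, Nat.cast_one] at h
  have h1 : pr (fun o : Om b M q => ∃ u v, (L : ℝ) < ‖HH o u v‖) ≤
      pr (fun o : Om b M q => ∃ u ∈ (Finset.univ : Finset (Fin M)), ∃ v ∈ (Finset.univ : Finset (Fin M)), (L : ℝ) < ‖HH o u v‖) := by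
    refine pr_mono fun o ho => ?_
    obtain ⟨u, v, h⟩ := ho
    exact ⟨u, Finset.mem_univ u, v, Finset.mem_univ v, h⟩
  refine h1.trans ((pr_exists _ _).trans ?_)
  have h2 : ∀ u : Fin M, pr (fun o : Om b M q => ∃ v ∈ (Finset.univ : Finset (Fin M)), (L : ℝ) < ‖HH o u v‖) ≤
      M * (2 * Real.exp (-((L : ℝ) ^ 2 / 10))) := by
    intro u
    refine (pr_exists _ _).trans ?_
    refine (Finset.sum_le_sum fun v _ => hT b M q hb hq u v L (Nat.cast_nonneg L)).trans ?_
    rw [Finset.sum_const, Finset.card_univ, Fintype.card_fin, nsmul_eq_mul]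
  refine (Finset.sum_le_sum fun u _ => h2 u).trans ?_
  rw [Finset.sum_const, Finset.card_univ, Fintype.card_fin, nsmul_eq_mul]
  exact outE_num hL hM0 hL2'

end ACpFrege
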