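import Pool.Agent.H12.AF.Prob
import Pool.Agent.H81.AF.Inter2

/-!
helper7 (project MP_28250c_AF): C7 for one vertex (deterministic): the entry of the top eigenvector at `u` is bounded by the
component of the column `u` along the top eigenvector of the minor without `u`.
-/

set_option autoImplicit false

namespace ACpFrege

open Finset

variable {M : ℕ}

/-- The index set without `u`. -/
abbrev Wo (u : Fin M) : Type := {v : Fin M // v ≠ u}

/-- The matrix without the row and the column `u`. -/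
noncomputable def mnr (H : Matrix (Fin M) (Fin M) ℂ) (u : Fin M) : Matrix (Wo u) (Wo u) ℂ :=
  H.submatrix Subtype.val Subtype.val

/-- The eigenvectors of the minor, extended by zero. -/
noncomputable def mxi (H : Matrix (Fin M) (Fin M) ℂ) (u : Fin M) (j : ℕ) : Fin M → ℂ := exz Subtype.val (xi (mnr H u) j)

theorem card_wo (u : Fin M) : Fintype.card (Wo u) = M - 1 := by
  rw [Fintype.card_subtype_compl, Fintype.card_fin, Fintype.card_subtype_eq]

theorem mnr_herm {H : Matrix (Fin M) (Fin M) ℂ} (hH : H.IsHermitian) (u : Fin M) : (mnr H u).IsHermitian :=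
  hH.submatrix _

theorem mxi_on {H : Matrix (Fin M) (Fin M) ℂ} (hH : H.IsHermitian) (u : Fin M) {i j : ℕ} (hi : i < M - 1) (hj : j < M - 1) :
    ip (mxi H u i) (mxi H u j) = if i = j then 1 else 0 := by
  unfold mxi
  rw [ip_exz _ Subtype.val_injective, xi_on (mnr_herm hH u) (by rwa [card_wo]) (by rwa [card_wo])]

/-- The column `u` restricted to the other indices. -/
noncomputable def rho (H : Matrix (Fin M) (Fin M) ℂ) (u : Fin M) : Wo u → ℂ := fun v => H v.1 u

theorem ip_mxi_col (H : Matrix (Fin M) (Fin M) ℂ) (u : Fin M) (j : ℕ) :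
    ip (mxi H u j) (col H u) = ip (xi (mnr H u) j) (rho H u) := by
  unfold mxi ip
  rw [exz_sum]
  refine Finset.sum_congr rfl fun k _ => ?_
  unfold col rho
  rw [if_neg k.2]

/-- A sum over all indices, the index `u` taken out. -/
theorem sum_wo (u : Fin M) (f : Fin M → ℂ) : ∑ v, f v = f u + ∑ v : Wo u, f v.1 := by
  rw [← Finset.add_sum_erase Finset.univ f (Finset.mem_univ u)]
  congr 1
  refine Finset.sum_subtype _ (fun v => ?_) f
  simp

theorem det7 {H : Matrix (Fin M) (Fin M) ℂ} (hH : H.IsHermitian) (u : Fin M) (hM : 2 ≤ M) {θ K : ℝ} (hθ : θ ≤ lam H 0)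
    (hmu : ∀ j ∈ Ico 1 (M - 1), lam (mnr H u) j < θ)
    (hK : ∑ j ∈ Ico 1 (M - 1), ‖ip (mxi H u j) (col H u)‖ ^ 2 / (θ - lam (mnr H u) j) ≤ K) :
    ‖xi H 0 u‖ * (lam H 0 - ‖H u u‖ - K) ≤ ‖ip (mxi H u 0) (col H u)‖ := by
  have hD := mnr_herm hH u
  have hc : 0 < Fintype.card (Fin M) := by rw [Fintype.card_fin]; omega
  obtain ⟨x, hx⟩ : ∃ x, x = xi H 0 := ⟨_, rfl⟩
  obtain ⟨l, hl⟩ : ∃ l, l = lam H 0 := ⟨_, rfl⟩
  obtain ⟨z, hz⟩ : ∃ z : Wo u → ℂ, z = fun v => x v.1 := ⟨_, rfl⟩
  obtain ⟨D, hDd⟩ : ∃ D, D = mnr H u := ⟨_, rfl⟩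
  rw [← hDd] at hD
  have heig : H.mulVec x = (l : ℂ) • x := by rw [hx, hl]; exact xi_eig hH hc
  have hx1 : nsq x = 1 := by rw [hx]; exact xi_nsq hH hc
  -- the rows off `u`
  have h1 : ∀ v : Wo u, D.mulVec z v = (l : ℂ) * z v - x u * rho H u v := by
    intro v
    have h := congrFun heig v.1
    unfold Matrix.mulVec dotProduct at h
    rw [sum_wo u] at h
    have h2 : D.mulVec z v = ∑ w : Wo u, H v.1 w.1 * x w.1 := by
      rw [hDd, hz]
      rfl
    rw [h2, hz]
    change H v.1 u * x u + ∑ w : Wo u, H v.1 w.1 * x w.1 = (l : ℂ) * x v.1 at h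
    unfold rho
    linear_combination h
  -- the row `u`
  have h2 : H u u * x u + ip (rho H u) z = (l : ℂ) * x u := by
    have h := congrFun heig u
    unfold Matrix.mulVec dotProduct at h
    rw [sum_wo u] at h
    have h3 : ip (rho H u) z = ∑ w : Wo u, H u w.1 * x w.1 := by
      rw [hz]
      unfold ip rho
      refine Finset.sum_congr rfl fun w _ => ?_
      congr 1
      have := hH.apply u w.1
      rw [← this]
      rfl
    rw [h3]
    exact h
  -- coefficients
  have h3 : ∀ j < M - 1, ((l - lam D j : ℝ) : ℂ) * ip (xi D j) z = x u * ip (xi D j) (rho H u) := by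
    intro j hj
    have hj' : j < Fintype.card (Wo u) := by rwa [card_wo]
    have h := ip_xi_mulVec hD hj' z
    have h4 : D.mulVec z = (l : ℂ) • z - x u • rho H u := by
      funext v
      rw [h1 v]
      rfl
    rw [h4, ip_sub_right, ip_smul_right, ip_smul_right] at h
    push_cast
    linear_combination h
  -- the quadratic identity
  have h4 : (starRingEnd ℂ) (x u) * ip (rho H u) z = ∑ j ∈ range (M - 1), (((l - lam D j) * ‖ip (xi D j) z‖ ^ 2 : ℝ) : ℂ) := by
    rw [ip_expand hD, card_wo, Finset.mul_sum]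
    refine Finset.sum_congr rfl fun j hj => ?_
    have h5 := h3 j (Finset.mem_range.1 hj)
    have h6 := congrArg (starRingEnd ℂ) h5
    rw [map_mul, map_mul, Complex.conj_ofReal] at h6
    rw [← mul_assoc, ← h6, mul_assoc, Complex.conj_mul']
    push_cast
    ring
  have h5 : (starRingEnd ℂ) (x u) * ip (rho H u) z = ((l - (H u u).re) * ‖x u‖ ^ 2 : ℝ) := by
    have h6 : ip (rho H u) z = ((l : ℂ) - H u u) * x u := by linear_combination h2
    have h7 : H u u = ((H u u).re : ℂ) := by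
      have := hH.apply u u
      exact (Complex.conj_eq_iff_real.1 this).elim fun r hr => by rw [hr, Complex.ofReal_re]
    rw [h6, h7, Complex.ofReal_re]
    have h8 := Complex.conj_mul' (x u)
    push_cast
    rw [← h8]
    ring
  have h6 : (l - (H u u).re) * ‖x u‖ ^ 2 = ∑ j ∈ range (M - 1), (l - lam D j) * ‖ip (xi D j) z‖ ^ 2 := by
    have h7 := h5.symm.trans h4
    exact_mod_cast h7
  -- norms of the coefficients
  have h7 : ∀ j < M - 1, |l - lam D j| * ‖ip (xi D j) z‖ = ‖x u‖ * ‖ip (mxi H u j) (col H u)‖ := by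
    intro j hj
    have h8 := congrArg norm (h3 j hj)
    rw [norm_mul, norm_mul, Complex.norm_real, Real.norm_eq_abs] at h8
    rw [h8, ip_mxi_col, hDd]
  have hz1 : ‖ip (xi D 0) z‖ ≤ 1 := by
    have h8 : nsq z ≤ 1 := by
      rw [← hx1, hz]
      unfold nsq
      rw [← Finset.add_sum_erase Finset.univ _ (Finset.mem_univ u)]
      have h9 : ∑ v : Wo u, ‖x v.1‖ ^ 2 = ∑ v ∈ Finset.univ.erase u, ‖x v‖ ^ 2 := by
        symm
        refine Finset.sum_subtype _ (fun v => ?_) (fun v => ‖x v‖ ^ 2)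
        simp
      change ∑ v : Wo u, ‖x v.1‖ ^ 2 ≤ _
      rw [h9]
      have := sq_nonneg ‖x u‖
      linarith
    have h9 := ip_cs (xi D 0) z
    rw [xi_nsq hD (by rw [card_wo]; omega), one_mul] at h9
    have h10 : ‖ip (xi D 0) z‖ ^ 2 ≤ 1 ^ 2 := by linarith
    exact le_of_sq_le_sq h10 (by norm_num)
  have h8 : ∑ j ∈ range (M - 1), (l - lam D j) * ‖ip (xi D j) z‖ ^ 2 ≤
      ‖x u‖ * ‖ip (mxi H u 0) (col H u)‖ + ‖x u‖ ^ 2 * K := by
    rw [Finset.range_eq_Ico, ← Finset.sum_erase_add _ _ (Finset.mem_Ico.2 ⟨le_rfl, by omega⟩ : (0 : ℕ) ∈ Ico 0 (M - 1))]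
    have h9 : (Ico 0 (M - 1)).erase 0 = Ico 1 (M - 1) := by
      ext j
      simp only [Finset.mem_erase, Finset.mem_Ico]
      omega
    rw [h9, add_comm]
    refine add_le_add ?_ ?_
    · have h10 := h7 0 (by omega)
      have h11 : (l - lam D 0) * ‖ip (xi D 0) z‖ ≤ ‖x u‖ * ‖ip (mxi H u 0) (col H u)‖ := by
        rw [← h10]
        exact mul_le_mul_of_nonneg_right (le_abs_self _) (norm_nonneg _)
      have h12 : 0 ≤ ‖x u‖ * ‖ip (mxi H u 0) (col H u)‖ := by positivity
      nlinarith [norm_nonneg (ip (xi D 0) z)]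
    · refine le_trans ?_ (mul_le_mul_of_nonneg_left hK (by positivity))
      rw [Finset.mul_sum]
      refine Finset.sum_le_sum fun j hj => ?_
      have hj' := Finset.mem_Ico.1 hj
      have h10 := h7 j hj'.2
      have h11 := hmu j hj
      rw [← hDd] at h11 ⊢
      rw [← hl] at hθ
      have h12 : 0 < θ - lam D j := by linarith
      have h13 : 0 < l - lam D j := by linarith
      rw [abs_of_pos h13] at h10
      have h14 : ‖x u‖ ^ 2 * ‖ip (mxi H u j) (col H u)‖ ^ 2 = ((l - lam D j) * ‖ip (xi D j) z‖) ^ 2 := by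
        rw [h10]
        ring
      rw [← mul_div_assoc, h14, le_div_iff₀ h12]
      have h15 : 0 ≤ ‖ip (xi D j) z‖ ^ 2 := by positivity
      have h16 : (l - lam D j) * (θ - lam D j) ≤ (l - lam D j) * (l - lam D j) :=
        mul_le_mul_of_nonneg_left (by linarith) h13.le
      nlinarith
  have h9 : (l - (H u u).re) * ‖x u‖ ^ 2 ≤ ‖x u‖ * ‖ip (mxi H u 0) (col H u)‖ + ‖x u‖ ^ 2 * K := by
    rw [h6]
    exact h8
  rw [← hx, ← hl]
  have h10 : (H u u).re ≤ ‖H u u‖ := Complex.re_le_norm _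
  rcases eq_or_lt_of_le (norm_nonneg (x u)) with h0 | h0
  · rw [← h0, zero_mul]
    exact norm_nonneg _
  · have h11 : ‖x u‖ * (‖x u‖ * (l - (H u u).re - K)) ≤ ‖x u‖ * ‖ip (mxi H u 0) (col H u)‖ := by nlinarith
    have h12 := le_of_mul_le_mul_left h11 h0
    nlinarith

end ACpFrege
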